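import Pool.Agent.Helper99.PG.GoalsF

/-! Packet PG-FE (MP_2b0227_gt): the edges of the open composite. -/

namespace Pool.Agent.Helper79.PG

open Pool.Agent.Helper36.SC Pool.Agent.Helper37.Arb Pool.Agent.Helper52.C2 Pool.Agent.Helper99.PG
open scoped Classical

set_option linter.unusedSectionVars false

section

variable {V : Type} [Fintype V] [DecidableEq V] (S : Skel V) (M : V → Marked)

theorem rem_under {v w : V} (h : S.D.underNext (some v) = some w) :
    Equiv.removeNone S.D.underNext v = w := by
  apply Option.some_injective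
  rw [Equiv.removeNone_some _ ⟨w, h⟩, h]

theorem rem_over {v w : V} (h : S.D.overNext (some v) = some w) :
    Equiv.removeNone S.D.overNext v = w := by
  apply Option.some_injective
  rw [Equiv.removeNone_some _ ⟨w, h⟩, h]

theorem ex_under {v : V} (h : v ≠ S.l) : ∃ w, S.D.underNext (some v) = some w := by
  rcases hw : S.D.underNext (some v) with _ | w
  · exfalso
    rw [← S.hl] at hw
    exact h (Option.some_injective _ (S.D.underNext.injective hw))
  · exact ⟨w, rfl⟩

theorem ex_over {v : V} (h : v ≠ S.r) : ∃ w, S.D.overNext (some v) = some w := by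
  rcases hw : S.D.overNext (some v) with _ | w
  · exfalso
    rw [← S.hr] at hw
    exact h (Option.some_injective _ (S.D.overNext.injective hw))
  · exact ⟨w, rfl⟩

theorem ne_l {v w : V} (h : S.D.underNext (some v) = some w) : v ≠ S.l := by
  rintro rfl
  rw [S.hl] at h
  exact absurd h (by simp)

theorem ne_r {v w : V} (h : S.D.overNext (some v) = some w) : v ≠ S.r := by
  rintro rfl
  rw [S.hr] at h
  exact absurd h (by simp)

theorem under_mark {v w : V} (h : S.D.underNext (some v) = some w) :
    (fill S.D S.l S.r M).D.underNext ⟨v, (M v).l⟩ = ⟨w, (M w).D.underNext (M w).l⟩ := by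
  show (Equiv.sigmaCongrRight fun v => (M v).D.underNext)
    (mv (Equiv.removeNone S.D.underNext) (fun v => (M v).l) ⟨v, (M v).l⟩) = _
  rw [mv_mark, rem_under S h]
  rfl

theorem over_mark {v w : V} (h : S.D.overNext (some v) = some w) :
    (fill S.D S.l S.r M).D.overNext ⟨v, (M v).r⟩ = ⟨w, (M w).D.overNext (M w).r⟩ := by
  show (Equiv.sigmaCongrRight fun v => (M v).D.overNext)
    (mv (Equiv.removeNone S.D.overNext) (fun v => (M v).r) ⟨v, (M v).r⟩) = _
  rw [mv_mark, rem_over S h]
  rfl

theorem under_ne {v : V} {p : (M v).V} (h : p ≠ (M v).l) :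
    (fill S.D S.l S.r M).D.underNext ⟨v, p⟩ = ⟨v, (M v).D.underNext p⟩ := by
  show (Equiv.sigmaCongrRight fun v => (M v).D.underNext)
    (mv (Equiv.removeNone S.D.underNext) (fun v => (M v).l) ⟨v, p⟩) = _
  rw [mv_ne _ (fun v => (M v).l) v p h]
  rfl

theorem over_ne {v : V} {p : (M v).V} (h : p ≠ (M v).r) :
    (fill S.D S.l S.r M).D.overNext ⟨v, p⟩ = ⟨v, (M v).D.overNext p⟩ := by
  show (Equiv.sigmaCongrRight fun v => (M v).D.overNext)
    (mv (Equiv.removeNone S.D.overNext) (fun v => (M v).r) ⟨v, p⟩) = _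
  rw [mv_ne _ (fun v => (M v).r) v p h]
  rfl

theorem mk_ne {v u : V} {B : V → Type} {p : B v} {q : B u} (h : v = u → HEq p q → False) :
    (⟨v, p⟩ : Σ v, B v) ≠ ⟨u, q⟩ := by
  intro hc
  rw [Sigma.mk.injEq] at hc
  exact h hc.1 hc.2

theorem inner_ne {B : V → Type} (m : ∀ v, B v) {v : V} (u : V) {p : B v} (h : p ≠ m v) :
    (⟨v, p⟩ : Σ v, B v) ≠ ⟨u, m u⟩ := by
  intro hc
  obtain rfl : v = u := congrArg Sigma.fst hc
  rw [Sigma.mk.injEq] at hc
  exact h (eq_of_heq hc.2)

theorem outer_ne {B : V → Type} (m : ∀ v, B v) {v u : V} (h : v ≠ u) :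
    (⟨v, m v⟩ : Σ v, B v) ≠ ⟨u, m u⟩ := fun hc => h (congrArg Sigma.fst hc)

end

theorem fEdge : GoalFEdge := by
  intro V _ _ S M x y
  constructor
  · intro h
    cases h with
    | oL a ha =>
      obtain ⟨v, p⟩ := a
      by_cases hp : p = (M v).r
      · subst hp
        have hv : v ≠ S.r := by
          intro hc
          subst hc
          exact ha rfl rfl
        obtain ⟨w, hw⟩ := ex_over S hv
        refine Or.inr (Or.inr ⟨v, w, hw, Or.inl ⟨rfl, ?_⟩⟩)
        exact congrArg (iL (fill S.D S.l S.r M).D) (over_mark S M hw)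
      · refine Or.inl ⟨v, _, _, Opn.oL p (fun _ => hp), rfl, ?_⟩
        exact congrArg (iL (fill S.D S.l S.r M).D) (over_ne S M hp)
    | oR a ha =>
      obtain ⟨v, p⟩ := a
      by_cases hp : p = (M v).r
      · subst hp
        have hv : v ≠ S.r := by
          intro hc
          subst hc
          exact ha rfl rfl
        obtain ⟨w, hw⟩ := ex_over S hv
        refine Or.inr (Or.inr ⟨v, w, hw, Or.inr ⟨rfl, ?_⟩⟩)
        exact congrArg (iR (fill S.D S.l S.r M).D) (over_mark S M hw)
      · refine Or.inl ⟨v, _, _, Opn.oR p (fun _ => hp), rfl, ?_⟩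
        exact congrArg (iR (fill S.D S.l S.r M).D) (over_ne S M hp)
    | uL a ha hb =>
      obtain ⟨v, p⟩ := a
      by_cases hp : p = (M v).l
      · subst hp
        have hv : v ≠ S.l := by
          intro hc
          subst hc
          exact ha rfl
        obtain ⟨w, hw⟩ := ex_under S hv
        refine Or.inr (Or.inl ⟨v, w, hw, Or.inl ⟨rfl, ?_⟩⟩)
        exact congrArg (jL (fill S.D S.l S.r M).D) (under_mark S M hw)
      · refine Or.inl ⟨v, _, _, Opn.uL p hp (fun h => absurd h (by simp)), rfl, ?_⟩
        exact congrArg (jL (fill S.D S.l S.r M).D) (under_ne S M hp)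
    | uR a ha hb =>
      obtain ⟨v, p⟩ := a
      by_cases hp : p = (M v).l
      · subst hp
        have hv : v ≠ S.l := by
          intro hc
          subst hc
          exact ha rfl
        obtain ⟨w, hw⟩ := ex_under S hv
        refine Or.inr (Or.inl ⟨v, w, hw, Or.inr ⟨rfl, ?_⟩⟩)
        exact congrArg (jR (fill S.D S.l S.r M).D) (under_mark S M hw)
      · refine Or.inl ⟨v, _, _, Opn.uR p hp (fun h => absurd h (by simp)), rfl, ?_⟩
        exact congrArg (jR (fill S.D S.l S.r M).D) (under_ne S M hp)
  · rintro (⟨v, c, c', hc, rfl, rfl⟩ | ⟨v, w, hw, h⟩ | ⟨v, w, hw, h⟩)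
    · cases hc with
      | oL p hp =>
        have h1 := Opn.oL (s := true) (D := (fill S.D S.l S.r M).D) (l := (fill S.D S.l S.r M).l)
          (r := (fill S.D S.l S.r M).r) ⟨v, p⟩
          (fun _ => inner_ne (fun v => (M v).r) S.r (hp rfl))
        rw [over_ne S M (hp rfl)] at h1
        exact h1
      | oR p hp =>
        have h1 := Opn.oR (s := true) (D := (fill S.D S.l S.r M).D) (l := (fill S.D S.l S.r M).l)
          (r := (fill S.D S.l S.r M).r) ⟨v, p⟩
          (fun _ => inner_ne (fun v => (M v).r) S.r (hp rfl))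
        rw [over_ne S M (hp rfl)] at h1
        exact h1
      | uL p hp _ =>
        have h1 := Opn.uL (s := true) (D := (fill S.D S.l S.r M).D) (l := (fill S.D S.l S.r M).l)
          (r := (fill S.D S.l S.r M).r) ⟨v, p⟩
          (inner_ne (fun v => (M v).l) S.l hp) (fun h => absurd h (by simp))
        rw [under_ne S M hp] at h1
        exact h1
      | uR p hp _ =>
        have h1 := Opn.uR (s := true) (D := (fill S.D S.l S.r M).D) (l := (fill S.D S.l S.r M).l)
          (r := (fill S.D S.l S.r M).r) ⟨v, p⟩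
          (inner_ne (fun v => (M v).l) S.l hp) (fun h => absurd h (by simp))
        rw [under_ne S M hp] at h1
        exact h1
    · have hne := outer_ne (fun v => (M v).l) (ne_l S hw)
      rcases h with ⟨rfl, rfl⟩ | ⟨rfl, rfl⟩
      · have h1 := Opn.uL (s := true) (D := (fill S.D S.l S.r M).D)
          (l := (fill S.D S.l S.r M).l) (r := (fill S.D S.l S.r M).r) ⟨v, (M v).l⟩
          hne (fun h => absurd h (by simp))
        rw [under_mark S M hw] at h1
        exact h1
      · have h1 := Opn.uR (s := true) (D := (fill S.D S.l S.r M).D)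
          (l := (fill S.D S.l S.r M).l) (r := (fill S.D S.l S.r M).r) ⟨v, (M v).l⟩
          hne (fun h => absurd h (by simp))
        rw [under_mark S M hw] at h1
        exact h1
    · have hne := outer_ne (fun v => (M v).r) (ne_r S hw)
      rcases h with ⟨rfl, rfl⟩ | ⟨rfl, rfl⟩
      · have h1 := Opn.oL (s := true) (D := (fill S.D S.l S.r M).D)
          (l := (fill S.D S.l S.r M).l) (r := (fill S.D S.l S.r M).r) ⟨v, (M v).r⟩
          (fun _ => hne)
        rw [over_mark S M hw] at h1
        exact h1
      · have h1 := Opn.oR (s := true) (D := (fill S.D S.l S.r M).D)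
          (l := (fill S.D S.l S.r M).l) (r := (fill S.D S.l S.r M).r) ⟨v, (M v).r⟩
          (fun _ => hne)
        rw [over_mark S M hw] at h1
        exact h1

end Pool.Agent.Helper79.PG
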